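import Pool.Agent.N979.P1.FinB

/-!
# Orientable fillings of the circle, of any genus, have area at least `1.96 π`

`M` is a compact oriented Riemannian surface, of any genus, whose boundary is the circle of length
`2π`; boundary points are not closer in `M` than in the circle. For unit vectors `θ` of the plane let
`g_θ` be a 1-Lipschitz function on `M` with the boundary values `arcsin (s ⟨x, θ⟩)`, `s → 1`, and
`Z = ∫ g_θ θ dθ`, a map of `M` to the disc of radius `2/π`. For a suitable function `k` of the plane
the form `∫ d(k(⟨Z, θ⟩, ⟨Z, Jθ⟩)) ∧ dg_θ dθ` is at most the area form: at the radius `r` of `Z` this is
the statement that the two eigenvalues of a product of two symmetric `2 × 2` matrices, whose entries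
are integrals over the circle, are at most `4`. Here `k` is given by `33 × 28` rational numbers,
which were found by semidefinite programming, and the condition has to be checked at `66` radii only.
The integral of the form is the integral of `k` over the boundary circle.
-/

set_option autoImplicit false

open MeasureTheory Metric Set InnerProductGeometry

namespace Pool.Agent.Results.MP_ecf18f_gt.AreaAnyGenus

open Pool.Agent.H241R3.FV Pool.Agent.N526.CP

/-- Every compact oriented Riemannian surface `M`, of any genus, whose boundary is the circle of
length `2π` and in which boundary points `x`, `y` have at least the distance which they have in the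
circle (the angle between the unit vectors `x` and `y`), has area at least `1.96 π`. -/
theorem result (M : Type) [MetricSpace M] [CompactSpace M] (S : OFill 2 M)
    (hS : ∀ x y : Sph 2, angle (x : E 2) (y : E 2) ≤ dist (S.bd x) (S.bd y)) :
    ENNReal.ofReal (1.96 * Real.pi) ≤ S.vol :=
  Pool.Agent.N979.P1.FinB.area M S hS

end Pool.Agent.Results.MP_ecf18f_gt.AreaAnyGenus
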