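import Mathlib
import Pool.Agent.N264.FAP.Main

/-!
# Fillings of the circle of any genus: the polygons of the gradients of the distance functions

Let `S` be a compact oriented Riemannian surface, of any genus, whose boundary is the circle of length
`2π`, without shortcuts. Take `N` equally spaced points of the circle and `1`-Lipschitz functions
`u 0, …, u (N - 1)` on `S` that extend their distance functions (for an isometric filling: the distances
to these boundary points). At almost every point `x` of `S` the gradients of these functions are the
vertices of a closed polygon in the unit disc of the tangent plane.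

* **Identity.** The integral over `S` of the algebraic area enclosed by this polygon is exactly
  `2π² (1 - 2 / N)`. So the area of `S` is at least `2π` if and only if, in the limit of many points, the
  mean over `S` of the area enclosed by the curve of gradients is at most `π`, the area of the unit disc.
* If the polygon encloses area at most `α` at almost all points, then `S` has area at least
  `2π² (1 - 2 / N) / α`.
* If the gradients turn at most `w(x)` times at `x` (never going back, or going back in small steps),
  for arbitrarily large `N`, then `∫ w ≥ 2π`. In particular the filling area conjecture holds, in any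
  genus, for fillings for which the gradients are in cyclic order almost everywhere.
-/

set_option autoImplicit false

open Finset Real MeasureTheory Filter Topology Set

namespace Pool.Agent.Results.MP_ecf18f_gt.GradientPolygons

open Pool.Agent.H115R3.Filling Pool.Agent.R248.FA Pool.Agent.N264.FAP

theorem result {M : Type} [MetricSpace M] (S : OrientedSurface M) :
    -- the functions `u` exist if there are no shortcuts, and distance functions are such functions if
    -- the circle is filled isometrically
    (S.NoShortcut → ∀ N : ℕ, 0 < N → ∃ u, Extends S N u) ∧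
    ((∀ s t : AddCircle (2 * π), dist (S.boundary s) (S.boundary t) = dist s t) →
      ∀ N : ℕ, 0 < N → Extends S N (distFun S N)) ∧
    -- the area enclosed by the polygon of gradients, in polar coordinates of the tangent plane
    (∀ (k : Fin S.faces) (N : ℕ) (f : ℕ → ℝ × ℝ → ℝ) (r φ : ℕ → ℝ), ∀ x ∈ Sq,
      (∀ j ≤ N, GradPolar (S.metric k) (f j) x (r j) (φ j)) →
      gradArea (S.metric k) N f x =
        (∑ j ∈ range N, r j * r (j + 1) * sin (φ (j + 1) - φ j)) / 2) ∧
    -- the identity
    (∀ (N : ℕ) (u : ℕ → M → ℝ), 2 ≤ N → Extends S N u →
      surfInt S (fun k => gradArea (S.metric k) N (inChart S u k)) =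
        2 * π ^ 2 * (1 - 2 / N)) ∧
    -- polygons of bounded area
    (∀ (N : ℕ) (u : ℕ → M → ℝ) (α : ℝ), 2 ≤ N → Extends S N u →
      (∀ k, ∀ᵐ x ∂(volume.restrict Sq), gradArea (S.metric k) N (inChart S u k) x ≤ α) →
      2 * π ^ 2 * (1 - 2 / N) ≤ α * S.area) ∧
    -- at most `w` turns, outside of `B`
    (∀ (N : ℕ) (u : ℕ → M → ℝ) (w : Fin S.faces → ℝ × ℝ → ℝ) (ε : ℝ)
      (B : Fin S.faces → Set (ℝ × ℝ)), 2 ≤ N → Extends S N u → (∀ k, ∀ x ∈ Sq, 0 ≤ w k x) →
      (∀ k, IntegrableOn (fun x => w k x * dens (S.metric k) x) Sq) → 0 ≤ ε →
      (∀ k, MeasurableSet (B k)) →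
      (∀ k, ∀ᵐ x ∂(volume.restrict Sq), x ∉ B k →
        AlmostTurns (S.metric k) N (inChart S u k) (w k x) ε x) →
      4 * π ^ 2 * (1 - 2 / N) ≤
        2 * π * surfInt S w + N * (ε ^ 3 / 6) * S.area + N * areaOf S B) ∧
    -- at most `w` turns for arbitrarily large `N`
    (∀ w : Fin S.faces → ℝ × ℝ → ℝ, (∀ k, ∀ x ∈ Sq, 0 ≤ w k x) →
      (∀ k, IntegrableOn (fun x => w k x * dens (S.metric k) x) Sq) → TurnsAtMost S w →
      2 * π ≤ surfInt S w) ∧
    -- at most one turn
    (TurnsAtMost S (fun _ _ => 1) → 2 * π ≤ S.area) :=
  ⟨fun h _ hN => exists_extends h hN, fun h _ hN => extends_dist h hN,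
    fun k N f r φ _ hx h => gradArea_polar (S.metric k) N f hx r φ h,
    fun _ _ hN h => identity hN h, fun _ _ _ hN h hae => bound_polygon hN h hae,
    fun _ _ _ _ B hN h hw hwi hε hB hae => bound hN h hw hwi hε B hB hae,
    fun _ hw hwi h => limit hw hwi h, fun h => one_turn h⟩

end Pool.Agent.Results.MP_ecf18f_gt.GradientPolygons
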