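import Mathlib
import Pool.Agent.N979.CAP.Fin

/-!
# The filling area conjecture, in any genus, for fillings with a round collar

Let `S` be a compact oriented Riemannian surface of ANY genus with boundary the circle of length
`2π`, such that antipodal boundary points have distance at least `π` (for instance an isometric
filling of the circle). Suppose that `S` has a round collar: near the boundary it is the part
`ρ₀ ≤ ρ ≤ π / 2` of the unit hemisphere (`ρ` the distance from the pole) with `2 / 5 ≤ cos ρ₀`
(the width `π / 2 - ρ₀` of the collar is at least 23.6 degrees). The rest of `S` is arbitrary.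
Then the area of `S` is at least `2π`.

So the area of the hemisphere cannot be decreased by replacing the cap of radius `ρ₀` (60 percent of
the area) by any surface of any genus and keeping the boundary distances.

Proof: the part `S₀` of `S` inside the collar is compared with the cap of radius `ρ₀`. Let
`b_θ = arcsin (sin ρ₀ cos (θ - t))` be the antipodally symmetric distance functions of the
hemisphere on the boundary of the cap, and `g_θ` a `1`-Lipschitz extension to `S₀`. The linear
statistic `∑ e_θ g_θ` defines a map `X` from `S₀` to the disc, and the closed form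
`∑ d h_θ(X) ∧ dg_θ - X^* (area form)` with `h_θ = (2 / π) (X × e_θ) / √(1 - (X · e_θ)²)` has
comass at most one in the limit of many directions and calibrates the cap.
-/

set_option autoImplicit false

namespace Pool.Agent.Results.MP_ecf18f_gt.RoundCollar

open Real Pool.Agent.H115R3.Filling Pool.Agent.N979.CAP

/-- A filling of the circle (of any genus) with a round collar `ρ₀ ≤ ρ ≤ π / 2`,
`2 / 5 ≤ cos ρ₀`, has area at least `2π`. -/
theorem result {M : Type} [MetricSpace M] (S S₀ : OrientedSurface M) (ρ₀ : ℝ)
    (h0 : 0 < ρ₀) (h1 : ρ₀ ≤ π / 2) (h2 : 2 / 5 ≤ cos ρ₀) (hc : RoundCollar S S₀ ρ₀)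
    (hS : ∀ φ : ℝ, π ≤ dist (S.boundary (φ : AddCircle (2 * π)))
      (S.boundary ((φ + π : ℝ) : AddCircle (2 * π)))) :
    2 * π ≤ S.area :=
  collar_anti sCAP S S₀ ρ₀ h0 h1 h2 hc hS

end Pool.Agent.Results.MP_ecf18f_gt.RoundCollar
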